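import Pool.Agent.W26.WsDefs

/-! The binomial sum: expected number of visits of a walk with drift. -/

set_option autoImplicit false

namespace Pool.Agent.W26.Ws

open Finset

/-- the ratio `sqrt (2^n 3^S / 2^(M+1))` -/
noncomputable def RR (n M S : ℕ) : ℝ := Real.sqrt (2 ^ n * 3 ^ S / 2 ^ (M + 1))

/-- the potential -/
noncomputable def gg (n M S : ℕ) : ℝ := min 1 (RR n M S)

theorem RR_nonneg (n M S : ℕ) : 0 ≤ RR n M S := Real.sqrt_nonneg _

theorem gg_nonneg (n M S : ℕ) : 0 ≤ gg n M S := le_min zero_le_one (RR_nonneg n M S)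

theorem gg_le_one (n M S : ℕ) : gg n M S ≤ 1 := min_le_left _ _

theorem RR_step0 (n M S : ℕ) : RR n (M + 1) S ≤ 71 / 100 * RR n M S := by
  unfold RR
  rw [show (71 / 100 : ℝ) = Real.sqrt ((71 / 100) ^ 2) by rw [Real.sqrt_sq (by norm_num)],
    ← Real.sqrt_mul (by positivity)]
  apply Real.sqrt_le_sqrt
  have : (2 : ℝ) ^ n * 3 ^ S / 2 ^ (M + 1 + 1) = 1 / 2 * (2 ^ n * 3 ^ S / 2 ^ (M + 1)) := by
    rw [pow_succ (2 : ℝ) (M + 1)]; field_simp
  rw [this]
  apply mul_le_mul_of_nonneg_right _ (by positivity)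
  norm_num

theorem RR_step1 (n M S : ℕ) : RR n (M + 1) (S + 1) ≤ 123 / 100 * RR n M S := by
  unfold RR
  rw [show (123 / 100 : ℝ) = Real.sqrt ((123 / 100) ^ 2) by rw [Real.sqrt_sq (by norm_num)],
    ← Real.sqrt_mul (by positivity)]
  apply Real.sqrt_le_sqrt
  have : (2 : ℝ) ^ n * 3 ^ (S + 1) / 2 ^ (M + 1 + 1) = 3 / 2 * (2 ^ n * 3 ^ S / 2 ^ (M + 1)) := by
    rw [pow_succ (2 : ℝ) (M + 1), pow_succ (3 : ℝ) S]; field_simp
  rw [this]
  apply mul_le_mul_of_nonneg_right _ (by positivity)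
  norm_num

theorem gg_super (n M S : ℕ) : (gg n (M + 1) S + gg n (M + 1) (S + 1)) / 2 ≤ gg n M S := by
  unfold gg
  have h0 := RR_step0 n M S
  have h1 := RR_step1 n M S
  have hR := RR_nonneg n M S
  apply le_min
  · have := min_le_left 1 (RR n (M + 1) S)
    have := min_le_left 1 (RR n (M + 1) (S + 1))
    linarith
  · have := min_le_right 1 (RR n (M + 1) S)
    have := min_le_right 1 (RR n (M + 1) (S + 1))
    linarith

/-- the visits -/
def visit (n M S : ℕ) : Prop := 2 ^ M ≤ 2 ^ n * 3 ^ S ∧ 2 ^ n * 3 ^ S < 2 ^ (M + 1)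

instance (n M S : ℕ) : Decidable (visit n M S) := by unfold visit; infer_instance

theorem gg_visit {n M S : ℕ} (h : visit n M S) :
    (gg n (M + 1) S + gg n (M + 1) (S + 1)) / 2 + 2 / 100 ≤ gg n M S := by
  obtain ⟨h1, h2⟩ := h
  have h1' : (2 : ℝ) ^ M ≤ 2 ^ n * 3 ^ S := by exact_mod_cast h1
  have h2' : (2 : ℝ) ^ n * 3 ^ S < 2 ^ (M + 1) := by exact_mod_cast h2
  have hR1 : RR n M S ≤ 1 := by
    unfold RR
    rw [Real.sqrt_le_one]
    rw [div_le_one (by positivity)]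
    exact h2'.le
  have hR2 : 7 / 10 ≤ RR n M S := by
    unfold RR
    apply Real.le_sqrt_of_sq_le
    rw [le_div_iff₀ (by positivity), pow_succ (2 : ℝ) M]
    have : (0 : ℝ) < 2 ^ M := by positivity
    nlinarith
  unfold gg
  rw [min_eq_right hR1]
  have h0 := RR_step0 n M S
  have h1 := RR_step1 n M S
  have := min_le_right 1 (RR n (M + 1) S)
  have := min_le_right 1 (RR n (M + 1) (S + 1))
  linarith

/-- the weighted sums -/
noncomputable def WW (n M : ℕ) : ℝ := ∑ S ∈ range (M + 1), (M.choose S : ℝ) / 2 ^ M * gg n M S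

theorem WW_nonneg (n M : ℕ) : 0 ≤ WW n M := by
  unfold WW
  apply Finset.sum_nonneg
  intro S _
  exact mul_nonneg (by positivity) (gg_nonneg _ _ _)

theorem WW_zero_le (n : ℕ) : WW n 0 ≤ 1 := by
  unfold WW
  simp
  exact gg_le_one _ _ _

theorem WW_succ (n M : ℕ) : WW n (M + 1) =
    ∑ S ∈ range (M + 1), (M.choose S : ℝ) / 2 ^ M *
      ((gg n (M + 1) S + gg n (M + 1) (S + 1)) / 2) := by
  unfold WW
  rw [Finset.sum_range_succ']
  have e1 : ∀ S, (((M + 1).choose (S + 1) : ℕ) : ℝ) / 2 ^ (M + 1) * gg n (M + 1) (S + 1) =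
      (M.choose S : ℝ) / 2 ^ (M + 1) * gg n (M + 1) (S + 1) +
      (M.choose (S + 1) : ℝ) / 2 ^ (M + 1) * gg n (M + 1) (S + 1) := by
    intro S
    rw [Nat.choose_succ_succ]
    push_cast
    ring
  simp_rw [e1]
  rw [Finset.sum_add_distrib, add_assoc]
  have e2 : ∑ S ∈ range (M + 1), (M.choose (S + 1) : ℝ) / 2 ^ (M + 1) * gg n (M + 1) (S + 1) +
      (((M + 1).choose 0 : ℕ) : ℝ) / 2 ^ (M + 1) * gg n (M + 1) 0 =
      ∑ S ∈ range (M + 1), (M.choose S : ℝ) / 2 ^ (M + 1) * gg n (M + 1) S := by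
    have h := Finset.sum_range_succ'
      (fun S => (M.choose S : ℝ) / 2 ^ (M + 1) * gg n (M + 1) S) (M + 1)
    rw [show (M + 1).choose 0 = M.choose 0 by simp, ← h, Finset.sum_range_succ,
      Nat.choose_succ_self]
    simp
  rw [e2, ← Finset.sum_add_distrib]
  apply Finset.sum_congr rfl
  intro S _
  rw [pow_succ]
  field_simp
  ring

/-- the contribution of one place -/
noncomputable def FF (n M S : ℕ) : ℝ := if visit n M S then (M.choose S : ℝ) / 2 ^ M else 0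

theorem FF_nonneg (n M S : ℕ) : 0 ≤ FF n M S := by
  unfold FF
  split_ifs
  · positivity
  · exact le_rfl

theorem WW_step (n M : ℕ) : WW n (M + 1) + 2 / 100 * ∑ S ∈ range (M + 1), FF n M S ≤ WW n M := by
  rw [WW_succ, Finset.mul_sum, ← Finset.sum_add_distrib]
  unfold WW
  apply Finset.sum_le_sum
  intro S _
  unfold FF
  have hc : (0 : ℝ) ≤ (M.choose S : ℝ) / 2 ^ M := by positivity
  split_ifs with h
  · have := mul_le_mul_of_nonneg_left (gg_visit h) hc
    linarith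
  · have := mul_le_mul_of_nonneg_left (gg_super n M S) hc
    linarith

theorem FF_sum (n K : ℕ) : ∑ M ∈ range K, ∑ S ∈ range (M + 1), FF n M S ≤ 50 := by
  have h : ∀ K, WW n K + 2 / 100 * ∑ M ∈ range K, ∑ S ∈ range (M + 1), FF n M S ≤ 1 := by
    intro K
    induction K with
    | zero => simpa using WW_zero_le n
    | succ K ih =>
      rw [Finset.sum_range_succ]
      have := WW_step n K
      linarith
  have h1 := h K
  have h2 := WW_nonneg n K
  linarith

theorem visit_kk (n ℓ : ℕ) : visit n (kk n ℓ + ℓ) ℓ := by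
  unfold visit kk
  set t := ⌊(ℓ : ℝ) * Real.logb 2 (3 / 2)⌋₊ with ht
  have h0 : 0 ≤ (ℓ : ℝ) * Real.logb 2 (3 / 2) :=
    mul_nonneg (Nat.cast_nonneg _) (Real.logb_nonneg (by norm_num) (by norm_num))
  have h1 : (t : ℝ) ≤ ℓ * Real.logb 2 (3 / 2) := Nat.floor_le h0
  have h2 : ℓ * Real.logb 2 (3 / 2) < t + 1 := Nat.lt_floor_add_one _
  have e1 : (ℓ : ℝ) * Real.logb 2 (3 / 2) = Real.logb 2 ((3 / 2) ^ ℓ) := by
    rw [Real.logb_pow]
  have e2 : (t : ℝ) = Real.logb 2 (2 ^ t) := by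
    rw [Real.logb_pow, Real.logb_self_eq_one (by norm_num), mul_one]
  have e3 : ((t : ℝ) + 1) = Real.logb 2 (2 ^ (t + 1)) := by
    rw [Real.logb_pow, Real.logb_self_eq_one (by norm_num), mul_one]; push_cast; rfl
  rw [e1, e2, Real.logb_le_logb (by norm_num) (by positivity) (by positivity)] at h1
  rw [e1, e3, Real.logb_lt_logb_iff (by norm_num) (by positivity) (by positivity)] at h2
  rw [div_pow, le_div_iff₀ (by positivity)] at h1
  rw [div_pow, div_lt_iff₀ (by positivity)] at h2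
  constructor
  · have : (2 : ℝ) ^ (n + t + ℓ) ≤ 2 ^ n * 3 ^ ℓ := by
      rw [pow_add, pow_add, mul_assoc]
      exact mul_le_mul_of_nonneg_left h1 (by positivity)
    exact_mod_cast this
  · have : (2 : ℝ) ^ n * 3 ^ ℓ < 2 ^ (n + t + ℓ + 1) := by
      rw [show n + t + ℓ + 1 = n + (t + 1) + ℓ by ring, pow_add, pow_add, mul_assoc]
      exact mul_lt_mul_of_pos_left h2 (by positivity)
    exact_mod_cast this

theorem choose_sum (n L : ℕ) :
    ∑ ℓ ∈ range L, ((kk n ℓ + ℓ).choose ℓ : ℝ) / 3 ^ ℓ ≤ 50 * 2 ^ n := by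
  classical
  have h1 : ∀ ℓ ∈ range L, ((kk n ℓ + ℓ).choose ℓ : ℝ) / 3 ^ ℓ ≤ 2 ^ n * FF n (kk n ℓ + ℓ) ℓ := by
    intro ℓ _
    have hv := visit_kk n ℓ
    unfold FF
    rw [if_pos hv]
    have h2 : (2 : ℝ) ^ (kk n ℓ + ℓ) ≤ 2 ^ n * 3 ^ ℓ := by exact_mod_cast hv.1
    rw [div_le_iff₀ (by positivity)]
    have hc : (0 : ℝ) ≤ ((kk n ℓ + ℓ).choose ℓ : ℝ) / 2 ^ (kk n ℓ + ℓ) := by positivity
    have h3 := mul_le_mul_of_nonneg_left h2 hc
    rw [div_mul_cancel₀ _ (by positivity)] at h3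
    linarith
  refine (Finset.sum_le_sum h1).trans ?_
  rw [← Finset.mul_sum, mul_comm]
  apply mul_le_mul_of_nonneg_right _ (by positivity)
  set K := (∑ ℓ ∈ range L, (kk n ℓ + ℓ)) + 1 with hK
  have h4 : ∑ ℓ ∈ range L, FF n (kk n ℓ + ℓ) ℓ ≤
      ∑ x ∈ (range K).sigma (fun M => range (M + 1)), FF n x.1 x.2 := by
    have e1 : ∑ ℓ ∈ range L, FF n (kk n ℓ + ℓ) ℓ =
        ∑ x ∈ (range L).image (fun ℓ => (⟨kk n ℓ + ℓ, ℓ⟩ : (_ : ℕ) × ℕ)), FF n x.1 x.2 := by
      rw [Finset.sum_image]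
      intro a _ b _ h
      have := congrArg Sigma.snd h
      simpa using this
    rw [e1]
    apply Finset.sum_le_sum_of_subset_of_nonneg
    · intro x hx
      obtain ⟨ℓ, hℓ, rfl⟩ := Finset.mem_image.1 hx
      rw [Finset.mem_sigma, Finset.mem_range, Finset.mem_range]
      refine ⟨?_, by simp only; omega⟩
      have := Finset.single_le_sum (f := fun ℓ => kk n ℓ + ℓ) (fun i _ => Nat.zero_le _) hℓ
      simp only at this ⊢
      omega
    · intro x _ _
      exact FF_nonneg _ _ _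
  rw [Finset.sum_sigma] at h4
  exact h4.trans (FF_sum n K)

end Pool.Agent.W26.Ws
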