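import Pool.Agent.W26.WsCount
import Pool.Agent.W26.WsBinom

/-! The mean value of the estimating series is at most a constant times `2 ^ n`. -/

set_option autoImplicit false

namespace Pool.Agent.W26.Ws

open MeasureTheory Finset Pool.Agent.H320R2.PD

/-! ### words -/

/-- add one to the first letter -/
def inc : List ℕ → List ℕ
  | [] => []
  | e :: w => (e + 1) :: w

/-- the words of length `ℓ` with positive letters and sum at most `N` -/
def words : ℕ → ℕ → Finset (List ℕ)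
  | 0, _ => {[]}
  | _ + 1, 0 => ∅
  | ℓ + 1, N + 1 => (words ℓ N).image (fun w => 1 :: w) ∪ (words (ℓ + 1) N).image inc

theorem words_card : ∀ N ℓ : ℕ, (words ℓ N).card ≤ N.choose ℓ := by
  intro N
  induction N with
  | zero =>
    intro ℓ
    cases ℓ with
    | zero => simp [words]
    | succ ℓ => simp [words]
  | succ N ih =>
    intro ℓ
    cases ℓ with
    | zero => simp [words]
    | succ ℓ =>
      rw [words, Nat.choose_succ_succ]
      refine (Finset.card_union_le _ _).trans ?_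
      exact Nat.add_le_add (Finset.card_image_le.trans (ih ℓ)) (Finset.card_image_le.trans (ih (ℓ + 1)))

theorem mem_words : ∀ N ℓ : ℕ, ∀ w : List ℕ, (∀ e ∈ w, 1 ≤ e) → w.length = ℓ → w.sum ≤ N →
    w ∈ words ℓ N := by
  intro N
  induction N with
  | zero =>
    intro ℓ w h1 h2 h3
    cases w with
    | nil =>
      simp at h2
      subst h2
      simp [words]
    | cons e w =>
      have := h1 e List.mem_cons_self
      rw [List.sum_cons] at h3
      omega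
  | succ N ih =>
    intro ℓ w h1 h2 h3
    cases w with
    | nil =>
      simp at h2
      subst h2
      simp [words]
    | cons e w =>
      subst h2
      rw [List.length_cons, words, Finset.mem_union, Finset.mem_image, Finset.mem_image]
      have he := h1 e List.mem_cons_self
      rw [List.sum_cons] at h3
      by_cases h : e = 1
      · left
        refine ⟨w, ih _ _ (fun x hx => h1 x (List.mem_cons_of_mem _ hx)) rfl (by omega), ?_⟩
        rw [h]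
      · right
        refine ⟨(e - 1) :: w, ih _ _ ?_ rfl ?_, ?_⟩
        · intro x hx
          rcases List.mem_cons.1 hx with rfl | hx
          · omega
          · exact h1 x (List.mem_cons_of_mem _ hx)
        · rw [List.sum_cons]; omega
        · show (e - 1 + 1) :: w = e :: w
          rw [show e - 1 + 1 = e by omega]

/-! ### residue classes -/

theorem toZModPow_appr (a : ℤ_[3]) (ℓ : ℕ) :
    PadicInt.toZModPow ℓ a = (a.appr ℓ : ZMod (3 ^ ℓ)) := rfl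

/-- the units in a residue class -/
def cls (ℓ : ℕ) (c : ZMod (3 ^ ℓ)) : Set ℤ_[3]ˣ := {a | PadicInt.toZModPow ℓ (a : ℤ_[3]) = c}

theorem cls_open (ℓ : ℕ) (c : ZMod (3 ^ ℓ)) : IsOpen (cls ℓ c) := by
  have h : IsOpen {x : ℤ_[3] | PadicInt.toZModPow ℓ x = c} := by
    rw [Metric.isOpen_iff]
    intro x hx
    refine ⟨(3 : ℝ) ^ (-(ℓ : ℤ)), by positivity, ?_⟩
    intro y hy
    rw [Metric.mem_ball, dist_eq_norm] at hy
    have h1 : y - x ∈ Ideal.span {((3 : ℕ) : ℤ_[3]) ^ ℓ} := by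
      rw [← PadicInt.norm_le_pow_iff_mem_span_pow]
      exact_mod_cast hy.le
    rw [← PadicInt.ker_toZModPow, RingHom.mem_ker, map_sub, sub_eq_zero] at h1
    rw [Set.mem_setOf_eq] at hx ⊢
    rw [h1, hx]
  exact h.preimage Units.continuous_val

theorem exists_lift {ℓ : ℕ} (hℓ : 1 ≤ ℓ) (u : (ZMod (3 ^ ℓ))ˣ) :
    ∃ g : ℤ_[3]ˣ, PadicInt.toZModPow ℓ (g : ℤ_[3]) = (u : ZMod (3 ^ ℓ)) := by
  haveI : NeZero (3 ^ ℓ) := ⟨by positivity⟩
  set m := (u : ZMod (3 ^ ℓ)).val with hm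
  have h1 : Nat.Coprime m (3 ^ ℓ) := ZMod.val_coe_unit_coprime u
  have h2 : Nat.Coprime 3 m := (Nat.Coprime.coprime_dvd_right (dvd_pow_self 3 (by omega)) h1).symm
  have h3 : IsUnit (m : ℤ_[3]) := by
    rw [PadicInt.isUnit_iff, PadicInt.norm_natCast_eq_one_iff]
    exact h2
  obtain ⟨g, hg⟩ := h3
  refine ⟨g, ?_⟩
  rw [hg, map_natCast, hm, ZMod.natCast_zmod_val]

theorem haarU_univ : haarU Set.univ = 1 := by
  letI : MeasurableSpace ℤ_[3]ˣ := borel ℤ_[3]ˣ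
  haveI : BorelSpace ℤ_[3]ˣ := ⟨rfl⟩
  show Measure.haarMeasure ⊤ Set.univ = 1
  have := Measure.haarMeasure_self (K₀ := (⊤ : TopologicalSpace.PositiveCompacts ℤ_[3]ˣ))
  simpa using this

theorem haarU_mul (g : ℤ_[3]ˣ) (A : Set ℤ_[3]ˣ) : haarU ((fun h => g * h) ⁻¹' A) = haarU A := by
  letI : MeasurableSpace ℤ_[3]ˣ := borel ℤ_[3]ˣ
  haveI : BorelSpace ℤ_[3]ˣ := ⟨rfl⟩
  exact measure_preimage_mul (Measure.haarMeasure ⊤) g A

theorem cls_measurable (ℓ : ℕ) (c : ZMod (3 ^ ℓ)) : @MeasurableSet _ (borel ℤ_[3]ˣ) (cls ℓ c) := by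
  letI : MeasurableSpace ℤ_[3]ˣ := borel ℤ_[3]ˣ
  haveI : BorelSpace ℤ_[3]ˣ := ⟨rfl⟩
  exact (cls_open ℓ c).measurableSet

theorem cls_measure {ℓ : ℕ} (hℓ : 1 ≤ ℓ) (c : ZMod (3 ^ ℓ)) :
    ((2 * 3 ^ (ℓ - 1) : ℕ) : ENNReal) * haarU (cls ℓ c) ≤ 1 := by
  classical
  haveI : NeZero (3 ^ ℓ) := ⟨by positivity⟩
  by_cases hc : IsUnit c
  · choose g hg using exists_lift hℓ
    have h1 : ∀ u : (ZMod (3 ^ ℓ))ˣ, haarU (cls ℓ (u * c)) = haarU (cls ℓ c) := by
      intro u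
      rw [← haarU_mul (g u) (cls ℓ (u * c))]
      congr 1
      ext h
      simp only [cls, Set.mem_preimage, Set.mem_setOf_eq, Units.val_mul, map_mul, hg]
      constructor
      · intro hh
        exact u.isUnit.mul_left_cancel hh
      · intro hh
        rw [hh]
    have h2 : ∑ u : (ZMod (3 ^ ℓ))ˣ, haarU (cls ℓ (u * c)) ≤ haarU Set.univ := by
      letI : MeasurableSpace ℤ_[3]ˣ := borel ℤ_[3]ˣ
      apply sum_measure_le_measure_univ
      · intro u _
        exact (cls_measurable ℓ _).nullMeasurableSet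
      · intro u _ v _ huv
        apply Disjoint.aedisjoint
        rw [Set.disjoint_left]
        intro x hx hx'
        apply huv
        have h3 : (u : ZMod (3 ^ ℓ)) * c = v * c := by
          rw [← (show PadicInt.toZModPow ℓ (x : ℤ_[3]) = u * c from hx)]
          exact hx'
        exact Units.ext (hc.mul_right_cancel h3)
    rw [haarU_univ] at h2
    simp_rw [h1] at h2
    rw [Finset.sum_const, Finset.card_univ, ZMod.card_units_eq_totient,
      Nat.totient_prime_pow Nat.prime_three (by omega), nsmul_eq_mul] at h2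
    rw [mul_comm 2]
    exact h2
  · have h1 : cls ℓ c = ∅ := by
      rw [Set.eq_empty_iff_forall_notMem]
      intro x hx
      apply hc
      rw [← (show PadicInt.toZModPow ℓ (x : ℤ_[3]) = c from hx)]
      exact x.isUnit.map _
    rw [h1]
    simp

theorem cls_measure' (ℓ : ℕ) (c : ZMod (3 ^ ℓ)) :
    haarU (cls ℓ c) ≤ ENNReal.ofReal (3 / 2 / 3 ^ ℓ) := by
  rcases Nat.eq_zero_or_pos ℓ with h | h
  · subst h
    calc haarU (cls 0 c) ≤ haarU Set.univ := measure_mono (Set.subset_univ _)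
      _ = 1 := haarU_univ
      _ = ENNReal.ofReal 1 := by simp
      _ ≤ _ := ENNReal.ofReal_le_ofReal (by norm_num)
  · have h1 := cls_measure h c
    have h2 : haarU (cls ℓ c) ≤ 1 / ((2 * 3 ^ (ℓ - 1) : ℕ) : ENNReal) := by
      rw [ENNReal.le_div_iff_mul_le (Or.inl (by positivity)) (Or.inl (ENNReal.natCast_ne_top _)),
        mul_comm]
      exact h1
    refine h2.trans (le_of_eq ?_)
    obtain ⟨m, rfl⟩ : ∃ m, ℓ = m + 1 := ⟨ℓ - 1, by omega⟩
    have h3 : (3 / 2 / 3 ^ (m + 1) : ℝ) = 1 / ((2 * 3 ^ (m + 1 - 1) : ℕ) : ℝ) := by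
      rw [Nat.add_sub_cancel]
      push_cast
      rw [pow_succ]
      field_simp
    rw [h3, ENNReal.ofReal_div_of_pos (by positivity), ENNReal.ofReal_one, ENNReal.ofReal_natCast]

/-! ### the mean value -/

/-- the residue class of the word `w` -/
noncomputable def cw (ℓ : ℕ) (w : List ℕ) : ZMod (3 ^ ℓ) := (2 ^ w.sum)⁻¹ * (Wo w : ZMod (3 ^ ℓ))

theorem mem_cw {ℓ : ℕ} {w : List ℕ} {a : ℤ_[3]ˣ}
    (h : (3 : ℤ) ^ ℓ ∣ 2 ^ w.sum * (((a : ℤ_[3]).appr ℓ + 3 ^ ℓ : ℕ) : ℤ) - Wo w) :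
    a ∈ cls ℓ (cw ℓ w) := by
  show PadicInt.toZModPow ℓ (a : ℤ_[3]) = cw ℓ w
  rw [toZModPow_appr]
  have h1 : (((2 ^ w.sum * (((a : ℤ_[3]).appr ℓ + 3 ^ ℓ : ℕ) : ℤ) - Wo w : ℤ)) : ZMod (3 ^ ℓ)) = 0 := by
    rw [ZMod.intCast_zmod_eq_zero_iff_dvd]
    exact_mod_cast h
  have h2 : ((3 : ZMod (3 ^ ℓ)) ^ ℓ) = 0 := by
    have := ZMod.natCast_self (3 ^ ℓ)
    exact_mod_cast this
  push_cast at h1
  rw [h2, add_zero, sub_eq_zero] at h1
  have h3 : IsUnit ((2 : ZMod (3 ^ ℓ)) ^ w.sum) := by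
    apply IsUnit.pow
    have := (ZMod.isUnit_iff_coprime 2 (3 ^ ℓ)).2 (Nat.Coprime.pow_right _ (by norm_num))
    exact_mod_cast this
  unfold cw
  rw [← h1, ← mul_assoc, ZMod.inv_mul_of_unit _ h3, one_mul]

theorem eZ_le (ℓ k : ℕ) (a : ℤ_[3]ˣ) : (eZ ℓ k (a : ℤ_[3]) : ENNReal) ≤
    ∑ w ∈ words ℓ (k + ℓ), (cls ℓ (cw ℓ w)).indicator 1 a := by
  classical
  have h1 : eZ ℓ k (a : ℤ_[3]) ≤ ((words ℓ (k + ℓ)).filter (fun w => a ∈ cls ℓ (cw ℓ w))).card := by
    unfold eZ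
    apply e_le_card
    rintro w ⟨h1, h2, h3, h4⟩
    rw [Finset.mem_filter]
    exact ⟨mem_words _ _ _ h1 h2 h3, mem_cw h4⟩
  have h2 : ∑ w ∈ words ℓ (k + ℓ), (cls ℓ (cw ℓ w)).indicator (1 : ℤ_[3]ˣ → ENNReal) a =
      (((words ℓ (k + ℓ)).filter (fun w => a ∈ cls ℓ (cw ℓ w))).card : ENNReal) := by
    simp only [Set.indicator_apply, Pi.one_apply]
    rw [Finset.sum_boole]
  rw [h2]
  exact_mod_cast h1

theorem sbar_le (n : ℕ) : sbar n ≤ ENNReal.ofReal (75 * 2 ^ n) := by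
  letI : MeasurableSpace ℤ_[3]ˣ := borel ℤ_[3]ˣ
  haveI : BorelSpace ℤ_[3]ˣ := ⟨rfl⟩
  have h1 : sbar n ≤ ∫⁻ a, ∑' ℓ : ℕ, ∑ w ∈ words ℓ (kk n ℓ + ℓ),
      (cls ℓ (cw ℓ w)).indicator 1 a ∂haarU := by
    apply lintegral_mono
    intro a
    exact ENNReal.tsum_le_tsum (fun ℓ => eZ_le ℓ (kk n ℓ) a)
  have hm : ∀ ℓ w, Measurable ((cls ℓ (cw ℓ w)).indicator (1 : ℤ_[3]ˣ → ENNReal)) := fun ℓ w =>
    measurable_one.indicator (cls_measurable ℓ _)
  rw [lintegral_tsum (fun ℓ => (Finset.measurable_fun_sum _ (fun w _ => hm ℓ w)).aemeasurable)] at h1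
  have h2 : ∀ ℓ, ∫⁻ a, ∑ w ∈ words ℓ (kk n ℓ + ℓ), (cls ℓ (cw ℓ w)).indicator 1 a ∂haarU ≤
      ENNReal.ofReal (3 / 2 * (((kk n ℓ + ℓ).choose ℓ : ℝ) / 3 ^ ℓ)) := by
    intro ℓ
    rw [lintegral_finset_sum _ (fun w _ => hm ℓ w)]
    have h3 : ∀ w ∈ words ℓ (kk n ℓ + ℓ), ∫⁻ a, (cls ℓ (cw ℓ w)).indicator 1 a ∂haarU ≤
        ENNReal.ofReal (3 / 2 / 3 ^ ℓ) := by
      intro w _
      rw [lintegral_indicator_one (cls_measurable ℓ _)]
      exact cls_measure' ℓ _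
    refine (Finset.sum_le_sum h3).trans ?_
    rw [Finset.sum_const, nsmul_eq_mul]
    have h4 : ((words ℓ (kk n ℓ + ℓ)).card : ENNReal) ≤ ((kk n ℓ + ℓ).choose ℓ : ENNReal) := by
      exact_mod_cast words_card _ _
    refine (mul_le_mul_left h4 _).trans (le_of_eq ?_)
    rw [← ENNReal.ofReal_natCast, ← ENNReal.ofReal_mul (by positivity)]
    congr 1
    ring
  refine h1.trans ((ENNReal.tsum_le_tsum h2).trans ?_)
  apply ENNReal.tsum_le_of_sum_range_le
  intro L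
  rw [← ENNReal.ofReal_sum_of_nonneg (fun ℓ _ => by positivity)]
  apply ENNReal.ofReal_le_ofReal
  rw [← Finset.mul_sum]
  have := choose_sum n L
  linarith

end Pool.Agent.W26.Ws
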