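import Pool.Agent.W26.WsDefs
import Pool.Agent.H320R2.PDFinal

/-! Words and the counting function `e`. -/

set_option autoImplicit false

namespace Pool.Agent.W26.Ws

open Pool.Agent.H320R2.PD Finset

theorem fT_cast (b : ℕ) : fT (b : ℤ) = ((T b : ℕ) : ℤ) := by
  unfold fT T
  split_ifs <;> omega

theorem fT_iter_cast (k : ℕ) : ∀ b : ℕ, fT^[k] (b : ℤ) = ((T^[k] b : ℕ) : ℤ) := by
  induction k with
  | zero => intro b; rfl
  | succ k ih => intro b; rw [Function.iterate_succ_apply, Function.iterate_succ_apply, fT_cast, ih]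

theorem card_succ (N b : ℕ) : ((range (N + 1)).filter (fun i => T^[i] b % 2 = 1)).card =
    ((range N).filter (fun i => T^[i] (T b) % 2 = 1)).card + (if b % 2 = 1 then 1 else 0) := by
  rw [Finset.card_filter, Finset.card_filter, Finset.sum_range_succ']
  rfl

theorem cod_eq (N : ℕ) : ∀ b : ℕ,
    cod N (b : ℤ) = ((range N).filter (fun i => T^[i] b % 2 = 1)).card := by
  induction N with
  | zero => intro b; simp [cod]
  | succ N ih =>
    intro b
    rw [cod, fT_cast, ih (T b), card_succ, add_comm]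
    congr 1
    by_cases hb : b % 2 = 1
    · rw [if_neg (by omega), if_pos hb]
    · rw [if_pos (by omega), if_neg hb]

theorem card_odd_even (N b : ℕ) :
    ((range N).filter (fun i => T^[i] b % 2 = 0)).card +
      ((range N).filter (fun i => T^[i] b % 2 = 1)).card = N := by
  have h := Finset.card_filter_add_card_filter_not (s := range N) (fun i => T^[i] b % 2 = 0)
  rw [Finset.card_range] at h
  convert h using 2
  congr 1
  ext i
  simp only [mem_filter, mem_range, and_congr_right_iff]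
  intro _
  omega

theorem le_two_mul_T (b : ℕ) : b ≤ 2 * T b := by
  unfold T
  split_ifs <;> omega

theorem le_two_pow_T (N : ℕ) : ∀ b : ℕ, b ≤ 2 ^ N * T^[N] b := by
  induction N with
  | zero => intro b; simp
  | succ N ih =>
    intro b
    rw [Function.iterate_succ_apply]
    calc b ≤ 2 * T b := le_two_mul_T b
      _ ≤ 2 * (2 ^ N * T^[N] (T b)) := Nat.mul_le_mul_left 2 (ih (T b))
      _ = _ := by ring

/-- the set counted by `e` -/
def Bset (ℓ k a : ℕ) : Set ℕ := {b : ℕ | 0 < b ∧ T^[k + ℓ] b = a ∧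
    ((Finset.range (k + ℓ)).filter (fun i => T^[i] b % 2 = 0)).card = k ∧
    ((Finset.range (k + ℓ)).filter (fun i => T^[i] b % 2 = 1)).card = ℓ}

theorem Bset_finite (ℓ k a : ℕ) : (Bset ℓ k a).Finite := by
  apply (Set.finite_Iic (2 ^ (k + ℓ) * a)).subset
  rintro b ⟨_, h, _⟩
  rw [Set.mem_Iic, ← h]
  exact le_two_pow_T _ b

/-- admissible words at `x` -/
def Adm (ℓ N : ℕ) (x : ℤ) (w : List ℕ) : Prop :=
  (∀ e ∈ w, 1 ≤ e) ∧ w.length = ℓ ∧ w.sum ≤ N ∧ (3 : ℤ) ^ ℓ ∣ 2 ^ w.sum * x - Wo w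

theorem Wo_inj' {u v : List ℕ} (hu : ∀ e ∈ u, 1 ≤ e) (hv : ∀ e ∈ v, 1 ≤ e)
    (hl : u.length = v.length) (hs : u.sum = v.sum) (hW : Wo u = Wo v) : u = v :=
  Wo_inj hu hv hl hs hW

theorem card_le_e {ℓ k a : ℕ} (ha : 0 < a) (S : Finset (List ℕ))
    (hS : ∀ w ∈ S, Adm ℓ (k + ℓ) (a : ℤ) w) : S.card ≤ e ℓ k a := by
  classical
  have hfin := Bset_finite ℓ k a
  have h1 : e ℓ k a = hfin.toFinset.card := Set.ncard_eq_toFinset_card _ hfin
  rw [h1]
  have h3 : (0 : ℤ) < 3 ^ ℓ := by positivity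
  -- the endpoint
  have key : ∀ w ∈ S, ∃ b : ℕ, b ∈ Bset ℓ k a ∧
      (3 : ℤ) ^ ℓ * b = 2 ^ (k + ℓ - w.sum) * (2 ^ w.sum * a - Wo w) := by
    intro w hw
    obtain ⟨hw1, hw2, hw3, hw4⟩ := hS w hw
    obtain ⟨q, hq⟩ := hw4
    have hq' : (2 ^ w.sum * (a : ℤ) - Wo w) / 3 ^ w.length = q := by
      rw [hq, hw2]; exact Int.mul_ediv_cancel_left q h3.ne'
    have hdv : (3 : ℤ) ^ w.length ∣ 2 ^ w.sum * (a : ℤ) - Wo w := by
      rw [hw2]; exact ⟨q, hq⟩
    have hreach := endpoint_reach hw1 hdv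
    have hcod := endpoint_cod hw1 hdv
    rw [hq'] at hreach hcod
    obtain ⟨j, hj⟩ : ∃ j, k + ℓ = j + w.sum := ⟨k + ℓ - w.sum, by omega⟩
    have hjj : k + ℓ - w.sum = j := by omega
    have hz : fT^[k + ℓ] (2 ^ j * q) = a := by
      rw [hj, add_comm j, Function.iterate_add_apply, fT_halve, hreach]
    have hzpos : 0 < 2 ^ j * q := by
      rw [← fT_iter_pos_iff (k + ℓ), hz]; exact_mod_cast ha
    obtain ⟨b, hb⟩ : ∃ b : ℕ, (b : ℤ) = 2 ^ j * q := ⟨(2 ^ j * q).toNat, Int.toNat_of_nonneg hzpos.le⟩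
    have hc : cod (k + ℓ) (b : ℤ) = ℓ := by
      rw [hb, hj, cod_add, cod_halve, fT_halve, hcod, hw2, zero_add]
    have hodd : ((range (k + ℓ)).filter (fun i => T^[i] b % 2 = 1)).card = ℓ := by
      rw [← cod_eq, hc]
    refine ⟨b, ⟨by rw [← hb] at hzpos; exact_mod_cast hzpos, ?_, ?_, hodd⟩, ?_⟩
    · have := fT_iter_cast (k + ℓ) b
      rw [hb, hz] at this
      exact_mod_cast this.symm
    · have := card_odd_even (k + ℓ) b
      omega
    · rw [hb, hjj, hq]; ring
  choose! f hf1 hf2 using key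
  apply Finset.card_le_card_of_injOn f
  · intro w hw
    rw [Set.Finite.coe_toFinset]
    exact hf1 w hw
  · intro w hw w' hw' hww
    obtain ⟨hw1, hw2, hw3, hw4⟩ := hS w hw
    obtain ⟨hw1', hw2', hw3', hw4'⟩ := hS w' hw'
    have e1 := hf2 w hw
    have e2 := hf2 w' hw'
    rw [hww] at e1
    rw [e1] at e2
    by_cases hℓ : ℓ = 0
    · have := List.eq_nil_of_length_eq_zero (hw2.trans hℓ)
      have h' := List.eq_nil_of_length_eq_zero (hw2'.trans hℓ)
      rw [this, h']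
    have hne : w ≠ [] := by rintro rfl; simp at hw2; omega
    have hne' : w' ≠ [] := by rintro rfl; simp at hw2'; omega
    have o1 := Wo_odd hw1 hne
    have o2 := Wo_odd hw1' hne'
    have e3 : (2 : ℤ) ^ (k + ℓ - w.sum) * Wo w = 2 ^ (k + ℓ - w'.sum) * Wo w' := by
      have p1 : (2 : ℤ) ^ (k + ℓ - w.sum) * 2 ^ w.sum = 2 ^ (k + ℓ) := by
        rw [← pow_add]; congr 1; omega
      have p2 : (2 : ℤ) ^ (k + ℓ - w'.sum) * 2 ^ w'.sum = 2 ^ (k + ℓ) := by
        rw [← pow_add]; congr 1; omega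
      have : (2 : ℤ) ^ (k + ℓ) * a - 2 ^ (k + ℓ - w.sum) * Wo w =
          2 ^ (k + ℓ) * a - 2 ^ (k + ℓ - w'.sum) * Wo w' := by
        rw [← p1]
        nth_rewrite 2 [p1]
        rw [← p2]
        linear_combination e2
      linarith
    have e4 : 2 ^ (k + ℓ - w.sum) * Wo w = 2 ^ (k + ℓ - w'.sum) * Wo w' := by exact_mod_cast e3
    have hsum : w.sum = w'.sum := by
      rcases lt_trichotomy w.sum w'.sum with h | h | h
      · exfalso
        obtain ⟨d, hd⟩ : ∃ d, k + ℓ - w.sum = (d + 1) + (k + ℓ - w'.sum) :=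
          ⟨w'.sum - w.sum - 1, by omega⟩
        rw [hd, pow_add, mul_comm (2 ^ (d + 1)), mul_assoc] at e4
        have := Nat.eq_of_mul_eq_mul_left (by positivity) e4
        rw [← this, pow_succ, show 2 ^ d * 2 * Wo w = 2 * (2 ^ d * Wo w) by ring] at o2
        omega
      · exact h
      · exfalso
        obtain ⟨d, hd⟩ : ∃ d, k + ℓ - w'.sum = (d + 1) + (k + ℓ - w.sum) :=
          ⟨w.sum - w'.sum - 1, by omega⟩
        rw [hd, pow_add, mul_comm (2 ^ (d + 1)), mul_assoc] at e4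
        have := Nat.eq_of_mul_eq_mul_left (by positivity) e4.symm
        rw [← this, pow_succ, show 2 ^ d * 2 * Wo w' = 2 * (2 ^ d * Wo w') by ring] at o1
        omega
    rw [hsum] at e4
    have hW := Nat.eq_of_mul_eq_mul_left (by positivity) e4
    exact Wo_inj' hw1 hw1' (hw2.trans hw2'.symm) hsum hW

/-- the word of a predecessor -/
def wd : ℕ → ℕ → List ℕ
  | 0, _ => []
  | N + 1, b => if b % 2 = 1 then wd N (T b) ++ [N + 1 - (wd N (T b)).sum] else wd N (T b)

theorem wd_odd {N b : ℕ} (hb : b % 2 = 1) :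
    wd (N + 1) b = wd N (T b) ++ [N + 1 - (wd N (T b)).sum] := by
  rw [wd, if_pos hb]

theorem wd_even {N b : ℕ} (hb : ¬ b % 2 = 1) : wd (N + 1) b = wd N (T b) := by
  rw [wd, if_neg hb]

theorem wd_sum_le (N : ℕ) : ∀ b, (wd N b).sum ≤ N := by
  induction N with
  | zero => intro b; simp [wd]
  | succ N ih =>
    intro b
    have h := ih (T b)
    by_cases hb : b % 2 = 1
    · rw [wd_odd hb, List.sum_append, List.sum_singleton]; omega
    · rw [wd_even hb]; omega

theorem wd_pos (N : ℕ) : ∀ b, ∀ e ∈ wd N b, 1 ≤ e := by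
  induction N with
  | zero => intro b e he; simp [wd] at he
  | succ N ih =>
    intro b e he
    have h := wd_sum_le N (T b)
    by_cases hb : b % 2 = 1
    · rw [wd_odd hb, List.mem_append, List.mem_singleton] at he
      rcases he with he | he
      · exact ih _ e he
      · omega
    · rw [wd_even hb] at he
      exact ih _ e he

theorem wd_length (N : ℕ) : ∀ b, (wd N b).length =
    ((range N).filter (fun i => T^[i] b % 2 = 1)).card := by
  induction N with
  | zero => intro b; simp [wd]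
  | succ N ih =>
    intro b
    rw [card_succ, ← ih (T b)]
    by_cases hb : b % 2 = 1
    · rw [wd_odd hb, if_pos hb]; simp
    · rw [wd_even hb, if_neg hb]; simp

theorem wd_eq (N : ℕ) : ∀ b, (2 : ℤ) ^ N * (T^[N] b : ℕ) =
    3 ^ (wd N b).length * b + 2 ^ (N - (wd N b).sum) * Wo (wd N b) := by
  induction N with
  | zero => intro b; simp [wd, Wo]
  | succ N ih =>
    intro b
    have h := ih (T b)
    have hs := wd_sum_le N (T b)
    rw [Function.iterate_succ_apply, pow_succ, mul_comm ((2 : ℤ) ^ N) 2, mul_assoc, h]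
    by_cases hb : b % 2 = 1
    · rw [wd_odd hb, Wo_snoc, List.sum_append, List.sum_singleton, List.length_append, List.length_singleton]
      have e1 : N + 1 - ((wd N (T b)).sum + (N + 1 - (wd N (T b)).sum)) = 0 := by omega
      have e2 : N + 1 - (wd N (T b)).sum = (N - (wd N (T b)).sum) + 1 := by omega
      rw [e1, e2]
      have e3 : 2 * (T b : ℤ) = 3 * b + 1 := by
        unfold T; rw [if_pos hb]; omega
      push_cast
      rw [pow_succ, pow_succ]
      linear_combination (3 : ℤ) ^ (wd N (T b)).length * e3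
    · have e2 : N + 1 - (wd N (T b)).sum = (N - (wd N (T b)).sum) + 1 := by omega
      have e3 : 2 * (T b : ℤ) = b := by
        unfold T; rw [if_neg hb]; omega
      rw [wd_even hb, e2, pow_succ]
      linear_combination (3 : ℤ) ^ (wd N (T b)).length * e3

theorem wd_adm {ℓ k a b : ℕ} (hb : b ∈ Bset ℓ k a) : Adm ℓ (k + ℓ) (a : ℤ) (wd (k + ℓ) b) := by
  obtain ⟨h0, h1, h2, h3⟩ := hb
  have hl : (wd (k + ℓ) b).length = ℓ := by rw [wd_length, h3]
  have hs := wd_sum_le (k + ℓ) b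
  have he := wd_eq (k + ℓ) b
  refine ⟨wd_pos _ _, hl, hs, ?_⟩
  rw [h1, hl] at he
  have e1 : (2 : ℤ) ^ (k + ℓ) = 2 ^ (k + ℓ - (wd (k + ℓ) b).sum) * 2 ^ (wd (k + ℓ) b).sum := by
    rw [← pow_add]; congr 1; omega
  have e2 : (3 : ℤ) ^ ℓ ∣ 2 ^ (k + ℓ - (wd (k + ℓ) b).sum) *
      (2 ^ (wd (k + ℓ) b).sum * a - Wo (wd (k + ℓ) b)) := by
    refine ⟨b, ?_⟩
    rw [e1] at he
    linear_combination he
  have hc : IsCoprime ((3 : ℤ) ^ ℓ) (2 ^ (k + ℓ - (wd (k + ℓ) b).sum)) :=
    IsCoprime.pow (by norm_num)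
  exact hc.dvd_of_dvd_mul_left e2

theorem e_le_card {ℓ k a : ℕ} (S : Finset (List ℕ))
    (hS : ∀ w, Adm ℓ (k + ℓ) (a : ℤ) w → w ∈ S) : e ℓ k a ≤ S.card := by
  classical
  have hfin := Bset_finite ℓ k a
  have h1 : e ℓ k a = hfin.toFinset.card := Set.ncard_eq_toFinset_card _ hfin
  rw [h1]
  apply Finset.card_le_card_of_injOn (wd (k + ℓ))
  · intro b hb
    rw [Set.Finite.coe_toFinset] at hb
    exact hS _ (wd_adm hb)
  · intro b hb b' hb' hbb
    rw [Set.Finite.coe_toFinset] at hb hb'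
    have e1 := wd_eq (k + ℓ) b
    have e2 := wd_eq (k + ℓ) b'
    rw [hb.2.1, hbb] at e1
    rw [hb'.2.1] at e2
    have e3 : (3 : ℤ) ^ (wd (k + ℓ) b').length * b = 3 ^ (wd (k + ℓ) b').length * b' := by
      linarith
    have := mul_left_cancel₀ (by positivity) e3
    exact_mod_cast this

end Pool.Agent.W26.Ws
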