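import Mathlib

/-! Wirsching's estimating series: definitions. -/

set_option autoImplicit false

namespace Pool.Agent.W26.Ws

open MeasureTheory

/-- the `3x+1` map on the natural numbers -/
def T (n : ℕ) : ℕ := if n % 2 = 1 then (3 * n + 1) / 2 else n / 2

/-- `e ℓ k a`: the number of positive integers `b` with `T^(k+ℓ) b = a` such that among
`b, T b, ..., T^(k+ℓ-1) b` exactly `k` are even and `ℓ` are odd -/
noncomputable def e (ℓ k a : ℕ) : ℕ :=
  {b : ℕ | 0 < b ∧ T^[k + ℓ] b = a ∧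
    ((Finset.range (k + ℓ)).filter (fun i => T^[i] b % 2 = 0)).card = k ∧
    ((Finset.range (k + ℓ)).filter (fun i => T^[i] b % 2 = 1)).card = ℓ}.ncard

/-- the extension of `e ℓ k` to the 3-adic integers: its value at a positive integer congruent to
`a` modulo `3 ^ ℓ` -/
noncomputable def eZ (ℓ k : ℕ) (a : ℤ_[3]) : ℕ := e ℓ k (a.appr ℓ + 3 ^ ℓ)

/-- the exponent `n + ⌊ℓ log_2 (3/2)⌋` -/
noncomputable def kk (n ℓ : ℕ) : ℕ := n + ⌊(ℓ : ℝ) * Real.logb 2 (3 / 2)⌋₊

/-- the estimating series at a 3-adic integer -/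
noncomputable def s (n : ℕ) (a : ℤ_[3]) : ENNReal := ∑' ℓ : ℕ, (eZ ℓ (kk n ℓ) a : ENNReal)

/-- the estimating series at a positive integer -/
noncomputable def sNat (n a : ℕ) : ENNReal := ∑' ℓ : ℕ, (e ℓ (kk n ℓ) a : ENNReal)

/-- the normalised Haar measure on the Borel sets of the group of 3-adic units -/
noncomputable def haarU : @Measure ℤ_[3]ˣ (borel ℤ_[3]ˣ) :=
  letI : MeasurableSpace ℤ_[3]ˣ := borel ℤ_[3]ˣ
  haveI : BorelSpace ℤ_[3]ˣ := ⟨rfl⟩
  Measure.haarMeasure ⊤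

/-- the mean value of the estimating series over the 3-adic units -/
noncomputable def sbar (n : ℕ) : ENNReal :=
  @lintegral ℤ_[3]ˣ (borel ℤ_[3]ˣ) haarU (fun a => s n (a : ℤ_[3]))

end Pool.Agent.W26.Ws
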