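import Pool.Agent.W26.WsDefs
import Pool.Agent.H320R2.PDFinal

/-! Uniform version of the hitting lemma: every integer prime to 3 has a predecessor in a given class,
along a word of bounded length and size. -/

set_option autoImplicit false

namespace Pool.Agent.W26.Ws

open Finset Pool.Agent.H412R2 Pool.Agent.H320R2.PD

theorem tr_word {E : ℕ} : ∀ {n s : ℕ} {a z : ℤ}, z ∈ tr 3 E n s a →
    ∃ u : List ℕ, (∀ e ∈ u, 1 ≤ e) ∧ u.length = n ∧ u.sum = s ∧
      (3 : ℤ) ^ u.length ∣ 2 ^ u.sum * a - Wo u ∧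
      (2 ^ u.sum * a - Wo u) / 3 ^ u.length = z := by
  intro n
  induction n with
  | zero =>
    intro s a z h
    rw [mem_tr_zero] at h
    exact ⟨[], by simp, rfl, by simp [h.1], by simp, by simp [Wo, h.2]⟩
  | succ n ih =>
    intro s a z h
    rw [mem_tr_succ (by norm_num)] at h
    obtain ⟨e, b, he1, he2, he3, hb, hz⟩ := h
    obtain ⟨u, hu1, hu2, hu3, hu4, hu5⟩ := ih hz
    push_cast at hb
    obtain ⟨q, hq⟩ := hu4
    have e1 : (2 : ℤ) ^ (e :: u).sum * a - Wo (e :: u) = 3 ^ (e :: u).length * q := by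
      rw [List.sum_cons, List.length_cons, Wo]
      push_cast
      rw [pow_succ, pow_add]
      linear_combination 3 * hq - (2 : ℤ) ^ u.sum * hb
    refine ⟨e :: u, ?_, by simp [hu2], by rw [List.sum_cons, hu3]; omega, ⟨q, e1⟩, ?_⟩
    · intro x hx
      rcases List.mem_cons.1 hx with rfl | hx
      · exact he1
      · exact hu1 x hx
    · rw [e1, Int.mul_ediv_cancel_left _ (by positivity), ← hu5, hq,
        Int.mul_ediv_cancel_left _ (by positivity)]

theorem hit_unif (N : ℕ) (r : ℤ) (hr : ¬ (3 : ℤ) ∣ r) : ∃ L B : ℕ, ∀ a : ℤ, ¬ (3 : ℤ) ∣ a →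
    ∃ (u : List ℕ) (j : ℕ), (∀ e ∈ u, 1 ≤ e) ∧ u.length ≤ L ∧ u.sum + j ≤ B ∧
      (3 : ℤ) ^ u.length ∣ 2 ^ u.sum * a - Wo u ∧
      (3 : ℤ) ^ N ∣ 2 ^ j * ((2 ^ u.sum * a - Wo u) / 3 ^ u.length) - r := by
  classical
  set T := max 20 N with hT
  have hT20 : 20 ≤ T := le_max_left _ _
  have hNT : N ≤ T := le_max_right _ _
  have hc := c2_gt
  have hη : (0 : ℝ) ≤ c2 / 4 := by linarith
  set κ := ker 0 T hη hT20 with hκ
  set ε : ℝ := 1 / (2 * 3 ^ T) with hε
  have hε0 : 0 < ε := by positivity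
  set Pr : ℤ → Prop := fun x => (3 : ℤ) ^ N ∣ x - r ∨ (3 : ℤ) ^ N ∣ x - 2 * r with hPr
  set g : ℤ → ℝ := fun x => (if Pr x then 1 else 0) - ε with hg
  have hPs : ∀ x y : ℤ, Pr (x + (3 : ℤ) ^ (T + 1) * y) ↔ Pr x := by
    intro x y
    have hd : (3 : ℤ) ^ N ∣ (3 : ℤ) ^ (T + 1) * y :=
      Dvd.dvd.mul_right (pow_dvd_pow 3 (by omega)) y
    have e1 : x + (3 : ℤ) ^ (T + 1) * y - r = (x - r) + (3 : ℤ) ^ (T + 1) * y := by ring
    have e2 : x + (3 : ℤ) ^ (T + 1) * y - 2 * r = (x - 2 * r) + (3 : ℤ) ^ (T + 1) * y := by ring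
    simp only [hPr]
    rw [e1, e2, dvd_add_left hd, dvd_add_left hd]
  have hgper : ∀ x y : ℤ, ¬ ((3 : ℕ) : ℤ) ∣ x → g (x + ((3 : ℕ) : ℤ) ^ (T + 1) * y) = g x := by
    intro x y _
    simp only [hg]
    push_cast
    rw [if_congr (hPs x y) rfl rfl]
  have hpos : ∀ r0 ∈ Finset.Ico 1 3,
      0 < ∑ x ∈ (Finset.range (3 ^ (T + 1))).filter (fun x => x % 3 = r0), g (x : ℤ) := by
    intro r0 hr0
    have hr0' := Finset.mem_Ico.1 hr0
    set C := (Finset.range (3 ^ (T + 1))).filter (fun x => x % 3 = r0) with hC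
    have hCc : (C.card : ℝ) = 3 ^ T := by
      have := class_card T r0 hr0
      rw [hC, this]; push_cast; ring
    -- a representative
    obtain ⟨u, hu, hu3⟩ : ∃ u : ℤ, (u = r ∨ u = 2 * r) ∧ u % 3 = (r0 : ℤ) := by
      have h1 : r % 3 = 1 ∨ r % 3 = 2 := by omega
      by_cases h2 : r % 3 = (r0 : ℤ)
      · exact ⟨r, Or.inl rfl, h2⟩
      · exact ⟨2 * r, Or.inr rfl, by omega⟩
    have hM : (0 : ℤ) < 3 ^ (T + 1) := by positivity
    set x0 := (u % 3 ^ (T + 1)).toNat with hx0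
    have hx0c : ((x0 : ℕ) : ℤ) = u % 3 ^ (T + 1) := Int.toNat_of_nonneg (Int.emod_nonneg _ hM.ne')
    have hx0l : x0 < 3 ^ (T + 1) := by
      have := Int.emod_lt_of_pos u hM
      rw [← hx0c] at this
      exact_mod_cast this
    have hx0d : ((x0 : ℕ) : ℤ) = u + 3 ^ (T + 1) * (-(u / 3 ^ (T + 1))) := by
      rw [hx0c, Int.emod_def]; ring
    have hx0m : x0 % 3 = r0 := by
      have h3 : ((x0 : ℕ) : ℤ) % 3 = u % 3 := by
        rw [hx0c]
        exact Int.emod_emod_of_dvd u (dvd_pow_self 3 (by omega))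
      omega
    have hmem : x0 ∈ C := by
      rw [hC, Finset.mem_filter, Finset.mem_range]
      exact ⟨hx0l, hx0m⟩
    have hPx : Pr (x0 : ℤ) := by
      rw [hx0d, hPs]
      simp only [hPr]
      rcases hu with h | h
      · left; rw [h]; simp
      · right; rw [h]; simp
    have hlow : (1 : ℝ) ≤ ∑ x ∈ C, (if Pr (x : ℤ) then (1 : ℝ) else 0) := by
      have := Finset.single_le_sum (f := fun x : ℕ => (if Pr (x : ℤ) then (1 : ℝ) else 0))
        (fun x _ => by split_ifs <;> norm_num) hmem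
      simpa [hPx] using this
    have hsum : ∑ x ∈ C, g (x : ℤ) = (∑ x ∈ C, (if Pr (x : ℤ) then (1 : ℝ) else 0)) - 1 / 2 := by
      simp only [hg]
      rw [Finset.sum_sub_distrib, Finset.sum_const, nsmul_eq_mul, hCc, hε]
      congr 1
      field_simp
    rw [hsum]
    linarith
  obtain ⟨n, _, hn⟩ := positive κ Nat.prime_three (by norm_num) (by omega) g hgper hpos
  refine ⟨T * n, T * n * (6 * T) + Nat.totient (3 ^ N), fun a ha => ?_⟩
  have ha' : ¬ ((3 : ℕ) : ℤ) ∣ a := by exact_mod_cast ha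
  obtain ⟨i, hin, hi⟩ := Finset.exists_lt_of_sum_lt (f := fun _ => (0 : ℝ))
    (by simpa using hn a ha')
  obtain ⟨s, z, hp, hz⟩ := path_of_pos κ g i a hi
  have hPz : Pr z := by
    by_contra hc
    simp only [hg] at hz
    rw [if_neg hc] at hz
    linarith
  have htr : z ∈ tr 3 (6 * T) (T * i) s a := path_tr hp
  obtain ⟨hs1, hs2⟩ := tr_size_le htr
  have hin' : i < n := Finset.mem_range.1 hin
  have hTi : T * i ≤ T * n := Nat.mul_le_mul_left T hin'.le
  have hs3 : s ≤ T * n * (6 * T) := hs2.trans (Nat.mul_le_mul_right _ hTi)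
  obtain ⟨u, hu1, hu2, hu3, hu4, hu5⟩ := tr_word htr
  rcases hPz with h | h
  · refine ⟨u, 0, hu1, by omega, by omega, hu4, ?_⟩
    rw [hu5, pow_zero, one_mul]; exact h
  · set m := Nat.totient (3 ^ N) with hm
    have hm0 : 0 < m := Nat.totient_pos.2 (by positivity)
    have h2 := two_pow_tot N
    rw [← hm] at h2
    obtain ⟨m', hm'⟩ : ∃ m', m = m' + 1 := ⟨m - 1, by omega⟩
    refine ⟨u, m', hu1, by omega, by omega, hu4, ?_⟩
    rw [hu5]
    have e : 2 ^ m' * z - r = 2 ^ m' * (z - 2 * r) + (2 ^ (m' + 1) - 1) * r := by ring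
    rw [e]
    apply dvd_add (Dvd.dvd.mul_left h _)
    rw [← hm']
    exact Dvd.dvd.mul_right h2 r

end Pool.Agent.W26.Ws
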