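import Pool.Agent.W26.WsCount
import Pool.Agent.W26.WsHit

/-! Lower bound for the estimating series. -/

set_option autoImplicit false

namespace Pool.Agent.W26.Ws

open Finset Pool.Agent.H320R2.PD

/-- prepend the word `u` and add `j` to the first letter -/
def comb (u : List ℕ) (j : ℕ) : List ℕ → List ℕ
  | [] => u
  | e :: w => u ++ ((e + j) :: w)

theorem core : ∃ c : ℝ, 0 < c ∧ ∃ n0 : ℕ, ∀ n : ℕ, n0 ≤ n → ∃ M : ℕ, ∀ a : ℤ, ¬ (3 : ℤ) ∣ a →
    ∃ S : Finset (List ℕ), (∀ w ∈ S, (∀ e ∈ w, 1 ≤ e) ∧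
      (3 : ℤ) ^ w.length ∣ 2 ^ w.sum * a - Wo w ∧ w.length ≤ M ∧
      (2 : ℝ) ^ w.sum ≤ 2 ^ n * 3 ^ w.length) ∧ c * 2 ^ n ≤ S.card := by
  classical
  obtain ⟨N0, N, r, hN0, hN1, hr, hgood⟩ := good_class
  obtain ⟨K, hK2, hK⟩ := Cnt.count_uniform quenched hN0
  obtain ⟨L, B, hLB⟩ := hit_unif N r hr
  obtain ⟨n0, hn0⟩ := pow_unbounded_of_one_lt (K * 2 ^ B) (by norm_num : (1 : ℝ) < 2)
  refine ⟨1 / (64 * 2 ^ B), by positivity, n0, fun n hn => ?_⟩
  set Y : ℝ := 2 ^ n / 2 ^ B with hY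
  have hYK : K ≤ Y := by
    rw [hY, le_div_iff₀ (by positivity)]
    exact hn0.le.trans (pow_le_pow_right₀ (by norm_num) hn)
  refine ⟨L + ⌈8 * (1 + Real.log Y)⌉₊, fun a ha => ?_⟩
  obtain ⟨u, j, hu1, hu2, hu3, hu4, hu5⟩ := hLB a ha
  set z0 : ℤ := (2 ^ u.sum * a - Wo u) / 3 ^ u.length with hz0
  have hz0' : (3 : ℤ) ^ u.length * z0 = 2 ^ u.sum * a - Wo u := Int.mul_ediv_cancel' hu4
  obtain ⟨S0, hS0, hcard⟩ := hK (2 ^ j * z0) (hgood _ hu5) Y hYK
  refine ⟨S0.image (comb u j), ?_, ?_⟩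
  · intro v hv
    obtain ⟨w, hw, rfl⟩ := Finset.mem_image.1 hv
    obtain ⟨h1, h2, h3, h4, h5, h6, h7, h8, h9⟩ := hS0 w hw
    cases w with
    | nil => simp at h3; omega
    | cons e w =>
      have hWo : Wo ((e + j) :: w) = Wo (e :: w) := rfl
      have hsum : ((e + j) :: w).sum = j + (e :: w).sum := by
        rw [List.sum_cons, List.sum_cons]; ring
      refine ⟨?_, ?_, ?_, ?_⟩
      · intro x hx
        rw [comb, List.mem_append] at hx
        rcases hx with hx | hx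
        · exact hu1 x hx
        · rcases List.mem_cons.1 hx with rfl | hx
          · have := h1 e List.mem_cons_self
            omega
          · exact h1 x (List.mem_cons_of_mem _ hx)
      · obtain ⟨q, hq⟩ := h2
        refine ⟨q, ?_⟩
        rw [comb, Wo_append, hWo, List.sum_append, hsum, List.length_append]
        have hl : ((e + j) :: w).length = (e :: w).length := rfl
        rw [hl]
        push_cast
        rw [pow_add, pow_add, pow_add]
        linear_combination (3 : ℤ) ^ u.length * hq - (2 : ℤ) ^ j * 2 ^ (e :: w).sum * hz0'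
      · rw [comb, List.length_append]
        have hl : ((e + j) :: w).length = (e :: w).length := rfl
        rw [hl]
        have : (e :: w).length ≤ ⌈8 * (1 + Real.log Y)⌉₊ := by
          have := h5.trans (Nat.le_ceil _)
          exact_mod_cast this
        omega
      · rw [comb, List.sum_append, hsum, List.length_append]
        have hl : ((e + j) :: w).length = (e :: w).length := rfl
        rw [hl]
        have e1 : (2 : ℝ) ^ (u.sum + (j + (e :: w).sum)) = 2 ^ (u.sum + j) * 2 ^ (e :: w).sum := by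
          rw [← pow_add]; congr 1; ring
        have e2 : (2 : ℝ) ^ (u.sum + j) ≤ 2 ^ B := pow_le_pow_right₀ (by norm_num) hu3
        have e3 : (2 : ℝ) ^ n = 2 ^ B * Y := by rw [hY]; field_simp
        have e4 : (1 : ℝ) ≤ 3 ^ u.length := one_le_pow₀ (by norm_num)
        have e5 : (3 : ℝ) ^ (u.length + (e :: w).length) = 3 ^ u.length * 3 ^ (e :: w).length :=
          pow_add _ _ _
        rw [e1, e5, e3]
        calc (2 : ℝ) ^ (u.sum + j) * 2 ^ (e :: w).sum
            ≤ 2 ^ B * (Y * 3 ^ (e :: w).length) :=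
              mul_le_mul e2 h8 (by positivity) (by positivity)
          _ ≤ 3 ^ u.length * (2 ^ B * (Y * 3 ^ (e :: w).length)) := by
              apply le_mul_of_one_le_left _ e4
              have : 0 ≤ Y := by linarith
              positivity
          _ = _ := by ring
  · rw [Finset.card_image_of_injOn]
    · refine le_trans (le_of_eq ?_) hcard
      rw [hY]; field_simp
    · intro w hw w' hw' hww
      have hl : 1 ≤ w.length := by
        have := (hS0 w hw).2.2.1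
        omega
      have hl' : 1 ≤ w'.length := by
        have := (hS0 w' hw').2.2.1
        omega
      cases w with
      | nil => simp at hl
      | cons e w =>
        cases w' with
        | nil => simp at hl'
        | cons e' w' =>
          simp only [comb] at hww
          have := List.append_cancel_left hww
          rw [List.cons.injEq] at this
          rw [List.cons.injEq]
          exact ⟨by omega, this.2⟩

theorem sum_le_kk {n ℓ t : ℕ} (h : (2 : ℝ) ^ t ≤ 2 ^ n * 3 ^ ℓ) : t ≤ kk n ℓ + ℓ := by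
  unfold kk
  by_contra hcon
  push Not at hcon
  obtain ⟨d, hd⟩ : ∃ d, t = n + ℓ + d := ⟨t - (n + ℓ), by omega⟩
  have hd1 : ⌊(ℓ : ℝ) * Real.logb 2 (3 / 2)⌋₊ < d := by omega
  have h0 : 0 ≤ (ℓ : ℝ) * Real.logb 2 (3 / 2) :=
    mul_nonneg (Nat.cast_nonneg _) (Real.logb_nonneg (by norm_num) (by norm_num))
  have h1 : (ℓ : ℝ) * Real.logb 2 (3 / 2) < d := (Nat.floor_lt h0).1 hd1
  have h2 : (2 : ℝ) ^ d ≤ (3 / 2) ^ ℓ := by
    rw [hd, pow_add, pow_add, mul_assoc] at h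
    have h3 := le_of_mul_le_mul_left h (by positivity)
    rw [div_pow, le_div_iff₀ (by positivity)]
    linarith
  have h4 : (d : ℝ) ≤ ℓ * Real.logb 2 (3 / 2) := by
    have h5 := Real.logb_le_logb_of_le (b := 2) (by norm_num) (by positivity) h2
    rw [Real.logb_pow, Real.logb_pow, Real.logb_self_eq_one (by norm_num), mul_one] at h5
    exact h5
  linarith

theorem count_to_s {n M : ℕ} {c : ℝ} (f : ℕ → ℕ) (S : Finset (List ℕ))
    (hS : ∀ w ∈ S, w.length ≤ M) (hc : c ≤ S.card)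
    (hf : ∀ ℓ ≤ M, (S.filter (fun w => w.length = ℓ)).card ≤ f ℓ) :
    ENNReal.ofReal c ≤ ∑' ℓ : ℕ, (f ℓ : ENNReal) := by
  classical
  have h1 : S.card = ∑ ℓ ∈ range (M + 1), (S.filter (fun w => w.length = ℓ)).card := by
    apply Finset.card_eq_sum_card_fiberwise
    intro w hw
    have := hS w hw
    simp only [Finset.coe_range, Set.mem_Iio]
    omega
  have h2 : (S.card : ENNReal) ≤ ∑ ℓ ∈ range (M + 1), (f ℓ : ENNReal) := by
    rw [h1]
    push_cast
    apply Finset.sum_le_sum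
    intro ℓ hℓ
    have := hf ℓ (by rw [Finset.mem_range] at hℓ; omega)
    exact_mod_cast this
  calc ENNReal.ofReal c ≤ ENNReal.ofReal (S.card : ℝ) := ENNReal.ofReal_le_ofReal hc
    _ = (S.card : ENNReal) := ENNReal.ofReal_natCast _
    _ ≤ ∑ ℓ ∈ range (M + 1), (f ℓ : ENNReal) := h2
    _ ≤ _ := ENNReal.sum_le_tsum _

theorem lower_nat : ∃ c : ℝ, 0 < c ∧ ∃ n0 : ℕ, ∀ n : ℕ, n0 ≤ n → ∀ a : ℕ, 0 < a → ¬ 3 ∣ a →
    ENNReal.ofReal (c * 2 ^ n) ≤ sNat n a := by
  obtain ⟨c, hc, n0, h⟩ := core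
  refine ⟨c, hc, n0, fun n hn a ha0 ha => ?_⟩
  obtain ⟨M, hM⟩ := h n hn
  obtain ⟨S, hS, hcard⟩ := hM (a : ℤ) (by exact_mod_cast ha)
  unfold sNat
  refine count_to_s (n := n) (M := M) (fun ℓ => e ℓ (kk n ℓ) a) S (fun w hw => (hS w hw).2.2.1) hcard ?_
  intro ℓ hℓ
  apply card_le_e ha0
  intro w hw
  obtain ⟨hw1, hw2⟩ := Finset.mem_filter.1 hw
  obtain ⟨h1, h2, h3, h4⟩ := hS w hw1
  refine ⟨h1, hw2, ?_, by rw [← hw2]; exact h2⟩
  rw [hw2] at h4
  exact sum_le_kk h4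

theorem appr_unit {a : ℤ_[3]} (ha : IsUnit a) {n : ℕ} (hn : 1 ≤ n) : ¬ (3 : ℤ) ∣ (a.appr n : ℤ) := by
  intro hd
  have h1 : a - (a.appr n : ℤ_[3]) ∈ Ideal.span {(3 : ℤ_[3]) ^ n} := by
    have := PadicInt.appr_spec n a
    exact_mod_cast this
  have h2 : (3 : ℤ_[3]) ∣ a - (a.appr n : ℤ_[3]) := by
    rw [Ideal.mem_span_singleton] at h1
    exact (dvd_pow_self 3 (by omega)).trans h1
  have h3 : (3 : ℤ_[3]) ∣ (a.appr n : ℤ_[3]) := by
    obtain ⟨q, hq⟩ := hd
    refine ⟨(q : ℤ_[3]), ?_⟩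
    have := congrArg (Int.cast : ℤ → ℤ_[3]) hq
    push_cast at this
    exact this
  have h4 : (3 : ℤ_[3]) ∣ a := by
    have := dvd_add h2 h3
    rwa [sub_add_cancel] at this
  have h5 : IsUnit (3 : ℤ_[3]) := isUnit_of_dvd_unit h4 ha
  have h6 : ¬ IsUnit ((3 : ℕ) : ℤ_[3]) := PadicInt.prime_p.not_isUnit
  exact h6 (by exact_mod_cast h5)

theorem appr_congr (a : ℤ_[3]) {m n : ℕ} (h : m ≤ n) :
    (3 : ℤ) ^ m ∣ (a.appr n : ℤ) - (a.appr m : ℤ) := by
  have h1 := PadicInt.dvd_appr_sub_appr a m n h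
  have h2 := PadicInt.appr_mono a h
  rw [← Nat.cast_sub h2]
  exact_mod_cast h1

theorem lower_padic : ∃ c : ℝ, 0 < c ∧ ∃ n0 : ℕ, ∀ n : ℕ, n0 ≤ n → ∀ a : ℤ_[3], IsUnit a →
    ENNReal.ofReal (c * 2 ^ n) ≤ s n a := by
  obtain ⟨c, hc, n0, h⟩ := core
  refine ⟨c, hc, n0, fun n hn a ha => ?_⟩
  obtain ⟨M, hM⟩ := h n hn
  obtain ⟨S, hS, hcard⟩ := hM (a.appr (M + 1) : ℤ) (appr_unit ha (by omega))
  unfold s
  refine count_to_s (n := n) (M := M) (fun ℓ => eZ ℓ (kk n ℓ) a) S (fun w hw => (hS w hw).2.2.1)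
    hcard ?_
  intro ℓ hℓ
  apply card_le_e (by positivity)
  intro w hw
  obtain ⟨hw1, hw2⟩ := Finset.mem_filter.1 hw
  obtain ⟨h1, h2, h3, h4⟩ := hS w hw1
  refine ⟨h1, hw2, ?_, ?_⟩
  · rw [hw2] at h4
    exact sum_le_kk h4
  · rw [hw2] at h2
    have h5 := appr_congr a (m := ℓ) (n := M + 1) (by omega)
    have e1 : (2 : ℤ) ^ w.sum * ((a.appr ℓ + 3 ^ ℓ : ℕ) : ℤ) - Wo w =
        (2 ^ w.sum * (a.appr (M + 1) : ℤ) - Wo w) - 2 ^ w.sum * ((a.appr (M + 1) : ℤ) - a.appr ℓ)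
          + 2 ^ w.sum * 3 ^ ℓ := by
      push_cast; ring
    rw [e1]
    exact dvd_add (dvd_sub h2 (Dvd.dvd.mul_left h5 _)) (Dvd.intro_left _ rfl)

end Pool.Agent.W26.Ws
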